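import Pool.Agent.Work.MP_39033f_nt.Defs
import Pool.Agent.Work.MP_39033f_nt.Ring

/-!
# The Breuil–Mézard identities for all Hodge and inertial types are equivalent to explicit
# numerical identities
-/

set_option autoImplicit false

open scoped MonoidAlgebra TensorProduct
open Pool.Agent.Work.MP_39033f_nt

namespace Pool.Agent.Results.MP_39033f_nt.FullCriterion

/-- `R` is a local ring with finite residue field `k` (such as `O_K`), `M τ` are representations
of `GL₂(R)` trivial on congruence subgroups (such as the reductions of the types), `n τ ν` is the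
multiplicity of the restricted Serre weight `W_ν` in `M τ`. For arbitrary natural numbers `e λ`
(trivial type) and `e' τ λ` there is a weight function `μ` satisfying all Breuil–Mézard identities
if and only if `e` is Frobenius periodic and `e'` is given by the explicit formula. -/
theorem result {p : ℕ} [Fact p.Prime] {R k F Emb : Type} [CommRing R] [IsLocalRing R] [Field k]
    [Fintype k] [CharP k p] [Field F] [Fintype Emb] [DecidableEq Emb] (π : R →+* k)
    (hπ : Function.Surjective π) (κ : Emb → k →+* F) (S : Finset Emb) (x₀ : Emb)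
    (hS : ∀ j : k →+* F, ∃! x, x ∈ S ∧ κ x = j)
    {T : Type} (N : T → Type) [∀ τ, AddCommGroup (N τ)] [∀ τ, Module F (N τ)]
    [∀ τ, FiniteDimensional F (N τ)] (M : ∀ τ, Representation F (GL (Fin 2) R) (N τ))
    (I : T → Ideal R) [∀ τ, Finite (R ⧸ I τ)]
    (hI : ∀ (τ : T) (g : GL (Fin 2) R),
      (∀ i j, g i j - (1 : Matrix (Fin 2) (Fin 2) R) i j ∈ I τ) → M τ g = 1)
    (n : T → (Emb → ℤ × ℤ) → ℕ)
    (hn : ∀ τ ν, Restricted p (Fintype.card k) S x₀ ν →
      RepJHSum (multFn (Wi (Matrix.GeneralLinearGroup.map π) κ ν)) (M τ) (n τ ν))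
    (e : (Emb → ℤ × ℤ) → ℕ) (e' : T → (Emb → ℤ × ℤ) → ℕ) :
    (∃ μ : WeightFn F[GL (Fin 2) R],
      (∀ lam, Dominant lam → RepJHSum μ (Wi (Matrix.GeneralLinearGroup.map π) κ lam) (e lam)) ∧
      ∀ τ lam, Dominant lam →
        RepJHSum μ (twist (Matrix.GeneralLinearGroup.map π) (M τ) (W κ lam)) (e' τ lam)) ↔
    (FrobeniusPeriodic p κ (fun lam => (e lam : ℤ)) ∧
      ∀ τ lam, Dominant lam → (e' τ lam : ℤ) =
        ∑ᶠ ν ∈ {ν : Emb → ℤ × ℤ | Restricted p (Fintype.card k) S x₀ ν}, (n τ ν : ℤ) *
          ∑ i ∈ Fintype.piFinset (fun x => Finset.range (gap ν x + 1)),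
            hat (fun l => (e l : ℤ)) (lam + fun x => ((ν x).1 - i x, (ν x).2 + i x))) := by
  have : CharP F p := charP_of_injective_ringHom (κ x₀).injective p
  obtain ⟨t, f, h⟩ := exists_setup (p := p) κ S x₀ hS
  have hfin := restricted_finite (Emb := Emb) p (Fintype.card k) S x₀
  have h1 := h.full_iff (Matrix.GeneralLinearGroup.map π) (gl_surjective π hπ) hfin.toFinset
    (fun ν => by rw [Set.Finite.mem_toFinset]; rfl) N M
    (fun τ => pact_of_congruence π hπ (M τ) (I τ) (hI τ)) n hn e e'
  rw [h1]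
  simp only [finsum_mem_eq_finite_toFinset_sum _ hfin]
  rfl

end Pool.Agent.Results.MP_39033f_nt.FullCriterion
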