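import Pool.Agent.Work.MP_39033f_nt.OneEmbMain

/-!
# The Breuil–Mézard identities are decided by the crystalline multiplicities at one embedding
-/

set_option autoImplicit false

open scoped MonoidAlgebra TensorProduct
open Pool.Agent.Work.MP_39033f_nt

namespace Pool.Agent.Results.MP_39033f_nt.OneEmbedding

/-- `R` is a local ring with finite residue field `k` (such as `O_K`), `M τ` are representations
of `GL₂(R)` trivial on congruence subgroups (such as the reductions of the types), `n τ ν` is the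
multiplicity of the restricted Serre weight `W_ν` in `M τ`, and `q = #k`. There are `q (q - 1)`
Frobenius periodic functions `c r b` (`0 ≤ r < q`, `0 ≤ b < q - 1`), dual to the weights
`wone x₀ r b = (b + r, b)` at the single embedding `x₀`, which expand every Frobenius periodic
function, and the Breuil–Mézard identities for all Hodge types and all types `τ` hold for some
weight function if and only if all multiplicities are the given combinations of the `q (q - 1)`
numbers `e (wone x₀ r b)`. -/
theorem result {p : ℕ} [Fact p.Prime] {R k F Emb : Type} [CommRing R] [IsLocalRing R] [Field k]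
    [Fintype k] [CharP k p] [Field F] [Fintype Emb] [DecidableEq Emb] (π : R →+* k)
    (hπ : Function.Surjective π) (κ : Emb → k →+* F) (S : Finset Emb) (x₀ : Emb)
    (hS : ∀ j : k →+* F, ∃! x, x ∈ S ∧ κ x = j)
    {T : Type} (N : T → Type) [∀ τ, AddCommGroup (N τ)] [∀ τ, Module F (N τ)]
    [∀ τ, FiniteDimensional F (N τ)] (M : ∀ τ, Representation F (GL (Fin 2) R) (N τ))
    (I : T → Ideal R) [∀ τ, Finite (R ⧸ I τ)]
    (hI : ∀ (τ : T) (g : GL (Fin 2) R),
      (∀ i j, g i j - (1 : Matrix (Fin 2) (Fin 2) R) i j ∈ I τ) → M τ g = 1)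
    (n : T → (Emb → ℤ × ℤ) → ℕ)
    (hn : ∀ τ ν, Restricted p (Fintype.card k) S x₀ ν →
      RepJHSum (multFn (Wi (Matrix.GeneralLinearGroup.map π) κ ν)) (M τ) (n τ ν)) :
    ∃ c : Fin (Fintype.card k) → Fin (Fintype.card k - 1) → (Emb → ℤ × ℤ) → ℤ,
      (∀ r b, FrobeniusPeriodic p κ (c r b)) ∧
      (∀ (r r' : Fin (Fintype.card k)) (b b' : Fin (Fintype.card k - 1)),
        c r b (wone x₀ r' b') = if r = r' ∧ b = b' then 1 else 0) ∧
      (∀ g : (Emb → ℤ × ℤ) → ℤ, FrobeniusPeriodic p κ g → ∀ lam, Dominant lam →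
        g lam = ∑ r : Fin (Fintype.card k), ∑ b : Fin (Fintype.card k - 1),
          g (wone x₀ r b) * c r b lam) ∧
      ∀ (e : (Emb → ℤ × ℤ) → ℕ) (e' : T → (Emb → ℤ × ℤ) → ℕ),
        (∃ μ : WeightFn F[GL (Fin 2) R],
          (∀ lam, Dominant lam → RepJHSum μ (Wi (Matrix.GeneralLinearGroup.map π) κ lam) (e lam)) ∧
          ∀ τ lam, Dominant lam →
            RepJHSum μ (twist (Matrix.GeneralLinearGroup.map π) (M τ) (W κ lam)) (e' τ lam)) ↔
        ((∀ lam, Dominant lam → (e lam : ℤ) =
            ∑ r : Fin (Fintype.card k), ∑ b : Fin (Fintype.card k - 1),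
              (e (wone x₀ r b) : ℤ) * c r b lam) ∧
          ∀ τ lam, Dominant lam → (e' τ lam : ℤ) =
            ∑ r : Fin (Fintype.card k), ∑ b : Fin (Fintype.card k - 1),
              (e (wone x₀ r b) : ℤ) *
                ∑ᶠ ν ∈ {ν : Emb → ℤ × ℤ | Restricted p (Fintype.card k) S x₀ ν}, (n τ ν : ℤ) *
                  ∑ i ∈ Fintype.piFinset (fun x => Finset.range (gap ν x + 1)),
                    hat (c r b) (lam + fun x => ((ν x).1 - i x, (ν x).2 + i x))) := by
  classical
  have : CharP F p := charP_of_injective_ringHom (κ x₀).injective p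
  obtain ⟨t, f, h⟩ := exists_setup (p := p) κ S x₀ hS
  have hfin := restricted_finite (Emb := Emb) p (Fintype.card k) S x₀
  obtain ⟨c, hc1, hc2, hc3⟩ := h.exists_dual
  refine ⟨c, hc1, hc2, hc3, fun e e' => ?_⟩
  have h1 := h.full_iff (Matrix.GeneralLinearGroup.map π) (gl_surjective π hπ) hfin.toFinset
    (fun ν => by rw [Set.Finite.mem_toFinset]; rfl) N M
    (fun τ => pact_of_congruence π hπ (M τ) (I τ) (hI τ)) n hn e e'
  rw [h1]
  simp only [finsum_mem_eq_finite_toFinset_sum _ hfin]
  -- the function `e` as a combination of the `c r b`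
  set E : (Emb → ℤ × ℤ) → ℤ := fun l => ∑ z : Fin (Fintype.card k) × Fin (Fintype.card k - 1),
    (e (wone x₀ z.1 z.2) : ℤ) * c z.1 z.2 l with hE
  have hEper : FrobeniusPeriodic p κ E :=
    FrobeniusPeriodic.sum Finset.univ _
      (fun z : Fin (Fintype.card k) × Fin (Fintype.card k - 1) => c z.1 z.2)
      (fun z _ => hc1 z.1 z.2)
  have hEsum : ∀ l, E l = ∑ r : Fin (Fintype.card k), ∑ b : Fin (Fintype.card k - 1),
      (e (wone x₀ r b) : ℤ) * c r b l := fun l => by rw [hE]; exact Fintype.sum_prod_type _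
  have key : ∀ (heE : ∀ l, Dominant l → (e l : ℤ) = E l) (τ : T) (lam : Emb → ℤ × ℤ),
      (∑ ν ∈ hfin.toFinset, (n τ ν : ℤ) * gsum (hat (fun l => (e l : ℤ))) ν lam)
      = ∑ r : Fin (Fintype.card k), ∑ b : Fin (Fintype.card k - 1),
          (e (wone x₀ r b) : ℤ) * ∑ ν ∈ hfin.toFinset, (n τ ν : ℤ) *
            gsum (hat (c r b)) ν lam := by
    intro heE τ lam
    have h2 : ∀ ν, gsum (hat (fun l => (e l : ℤ))) ν lam
        = ∑ z : Fin (Fintype.card k) × Fin (Fintype.card k - 1),
          (e (wone x₀ z.1 z.2) : ℤ) * gsum (hat (c z.1 z.2)) ν lam := by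
      intro ν
      have h3 : hat (fun l => (e l : ℤ)) = fun l =>
          ∑ z : Fin (Fintype.card k) × Fin (Fintype.card k - 1),
            (e (wone x₀ z.1 z.2) : ℤ) * hat (c z.1 z.2) l := by
        funext l
        rw [hat_congr (e' := E) heE l, hE]
        exact hat_sum Finset.univ _
          (fun z : Fin (Fintype.card k) × Fin (Fintype.card k - 1) => c z.1 z.2) l
      rw [h3]
      exact gsum_sum Finset.univ _
        (fun z : Fin (Fintype.card k) × Fin (Fintype.card k - 1) => hat (c z.1 z.2)) ν lam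
    simp only [h2, Finset.mul_sum]
    rw [Finset.sum_comm, Fintype.sum_prod_type]
    refine Finset.sum_congr rfl fun r _ => Finset.sum_congr rfl fun b _ => ?_
    refine Finset.sum_congr rfl fun ν _ => ?_
    ring
  constructor
  · rintro ⟨hper, hty⟩
    have heE : ∀ l, Dominant l → (e l : ℤ) = E l := fun l hl => by
      rw [hEsum]; exact hc3 _ hper l hl
    refine ⟨fun lam hlam => by rw [heE lam hlam, hEsum], fun τ lam hlam => ?_⟩
    rw [hty τ lam hlam, key heE τ lam]
    rfl
  · rintro ⟨hcr, hty⟩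
    have heE : ∀ l, Dominant l → (e l : ℤ) = E l := fun l hl => by
      rw [hEsum]; exact hcr l hl
    refine ⟨hEper.congr (fun ν hν => (heE ν hν).symm), fun τ lam hlam => ?_⟩
    rw [hty τ lam hlam, key heE τ lam]
    rfl

end Pool.Agent.Results.MP_39033f_nt.OneEmbedding
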