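import Pool.Agent.Work.MP_39033f_nt.TyRam

/-!
# Explicit Breuil–Mézard identities for all of Henniart's types

`R = 𝒪_K`, `π : R → k` the reduction, `q = |k|`, `ι : k → k2` the quadratic extension,
`ω ∈ k2 \ k`, `κ x : k → F` the embedding of `k` induced by `x ∈ Hom(K, E)`, `x₀` a fixed `x`.
The conclusion of `result` compares a function `e(λ)` (the multiplicities of the crystalline
deformation rings) with functions `e'_τ(λ)` (the multiplicities for the types `τ`).
-/

set_option autoImplicit false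

open scoped MonoidAlgebra TensorProduct
open Pool.Agent.Work.MP_39033f_nt

namespace Pool.Agent.Results.MP_39033f_nt.TypesExplicit

/-- `TypeFormula π κ x₀ ι ω κ2 M P` says that the representation `M` of `GL₂(R)` has the same
Jordan–Hölder factors as one of the representations listed below (the reductions of Henniart's
types), and that `P` is the explicit formula attached to it, which turns a function `e` on weights
into another one. Here `ssum G λ x₀ u v` is the sum of `G(λ + (u - c, v + c)_{x₀})` over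
`0 ≤ c ≤ u - v`, `hat e` is the extension of `e` to all weights which is antisymmetric for the dot
action, and
`zterm q e λ x₀ r = (λ_{x₀,1} - λ_{x₀,2} + 1)(e(λ + (r + q² - 1, 0)_{x₀}) - e(λ + (r, 0)_{x₀}))`,
`tterm q e λ x₀ a = ssum (hat e) λ x₀ (a + q² - 1) 0 - ssum (hat e) λ x₀ (a + q - 1) 0`. -/
inductive TypeFormula {R k k2 F Emb : Type} [CommRing R] [Field k] [Fintype k] [Field k2]
    [Fintype k2] [Field F] [Fintype Emb] [DecidableEq Emb] (π : R →+* k) (κ : Emb → k →+* F)
    (x₀ : Emb) (ι : k →+* k2) (ω : k2) (κ2 : k2 →+* F) {V : Type}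
    [AddCommGroup V] [Module F V] (M : Representation F (GL (Fin 2) R) V) :
    (((Emb → ℤ × ℤ) → ℤ) → (Emb → ℤ × ℤ) → ℤ) → Prop
  /-- `det^v ⊗ Sym^(u-v)` (through the embedding `κ x₀`): for `u = v = r` this is the reduction of
  `χ ∘ det`, the type of a scalar inertial type, and for `(u, v) = (r + q - 1, r)` that of a twist
  of the Steinberg representation of `GL₂(k)`. -/
  | algebraic (u v : ℤ) (huv : v ≤ u)
      (h : SameJH M (Wi (Matrix.GeneralLinearGroup.map π) κ (Pi.single x₀ (u, v)))) :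
      TypeFormula π κ x₀ ι ω κ2 M (fun e lam => ssum (hat e) lam x₀ u v)
  /-- The representation induced from the character `(a, b; c, d) ↦ κ₀(a)^i κ₀(d)^j` of
  `B = Γ₀(I)`: the reduction of the type of `χ₁ ⊕ χ₂` with `χ₁ ≠ χ₂`, where `I = 𝔭^n` is the
  conductor of `χ₁/χ₂`. (As `κ₀^(q-1) = 1` one may take `j` large.) -/
  | principal (I : Ideal R) [Finite (R ⧸ I)] (hI : I ≤ RingHom.ker π) (i j : ℕ)
      (hij : i + Fintype.card k < j) (B : Subgroup (GL (Fin 2) R)) (hB : ∀ g, g ∈ B ↔ g 1 0 ∈ I)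
      (χ : B →* Fˣ)
      (hχ : ∀ g : B, (χ g : F) = κ x₀ (π (g.1 0 0)) ^ i * κ x₀ (π (g.1 1 1)) ^ j)
      (h : SameJH M (Representation.coind B.subtype (chRep χ))) :
      TypeFormula π κ x₀ ι ω κ2 M (fun e lam =>
        ssum (hat e) lam x₀ j i - ssum (hat e) lam x₀ ((j : ℤ) - Fintype.card k) ((i : ℤ) + 1)
          + ((Nat.card (R ⧸ I) / Fintype.card k - 1) / (Fintype.card k - 1) : ℕ) *
            zterm (Fintype.card k) e lam x₀ (i + j))
  /-- The representation induced from a representation `N` of a subgroup `H` of the group `Z` of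
  the matrices whose reduction is upper triangular with equal diagonal entries, where `H` contains
  a congruence subgroup and the scalar matrices, and `N` is trivial on the congruence subgroup and
  has central character `κ₀^r`: the reductions of all types attached to ramified quadratic
  extensions. -/
  | ramified (Z H : Subgroup (GL (Fin 2) R))
      (hZ : ∀ g, g ∈ Z ↔ π (g 1 0) = 0 ∧ π (g 0 0) = π (g 1 1)) (hH : H ≤ Z)
      (I : Ideal R) [Finite (R ⧸ I)]
      (hIH : ∀ g : GL (Fin 2) R,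
        (∀ i j, g i j - (1 : Matrix (Fin 2) (Fin 2) R) i j ∈ I) → g ∈ H)
      (hz : ∀ z : Rˣ, Matrix.GeneralLinearGroup.scalar (Fin 2) z ∈ H)
      (U : Type) [AddCommGroup U] [Module F U] [FiniteDimensional F U]
      (N : Representation F H U)
      (hN : ∀ g : H, (∀ i j, g.1 i j - (1 : Matrix (Fin 2) (Fin 2) R) i j ∈ I) → N g = 1)
      (r : ℕ) (hr : ∀ (z : Rˣ) (g : H), g.1 = Matrix.GeneralLinearGroup.scalar (Fin 2) z →
        ∀ v, N g v = κ x₀ (π z) ^ r • v)
      (h : SameJH M (Representation.coind H.subtype N)) :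
      TypeFormula π κ x₀ ι ω κ2 M (fun e lam =>
        ((H.relIndex Z * Module.finrank F U : ℕ) : ℤ) * zterm (Fintype.card k) e lam x₀ r)
  /-- The representation induced from a representation `N` of the group `J` of the matrices
  which modulo `I` lie in the ring generated by `(0, -n; 1, t)`, where `ω² = tω - n`, in terms of
  the multiplicities `m a` of the powers of the character `θ = κ2(g 0 0 + ω (g 1 0))` in `N`: the
  reductions of all types of positive depth attached to the unramified quadratic extension, with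
  `I = 𝔭^m`. -/
  | unramified (t n : R) (htn : ω ^ 2 = ι (π t) * ω - ι (π n)) (I : Ideal R) [Finite (R ⧸ I)]
      (hI : I ≤ RingHom.ker π) (J : Subgroup (GL (Fin 2) R))
      (hJ : ∀ g, g ∈ J ↔ g 0 1 + n * g 1 0 ∈ I ∧ g 1 1 - g 0 0 - t * g 1 0 ∈ I)
      (θ : J →* Fˣ) (hθ : ∀ g : J, (θ g : F) = κ2 (ι (π (g.1 0 0)) + ω * ι (π (g.1 1 0))))
      (U : Type) [AddCommGroup U] [Module F U] [FiniteDimensional F U]
      (N : Representation F J U) (I' : Ideal R) [Finite (R ⧸ I')]
      (hN : ∀ g : J,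
        (∀ i j, g.1 i j - (1 : Matrix (Fin 2) (Fin 2) R) i j ∈ I') → N g = 1)
      (m : ℕ → ℕ)
      (hm : ∀ a < Fintype.card k2 - 1, RepJHSum (multFn (chRep (θ ^ a))) N (m a))
      (h : SameJH M (Representation.coind J.subtype N)) :
      TypeFormula π κ x₀ ι ω κ2 M (fun e lam =>
        ∑ a ∈ Finset.range (Fintype.card k2 - 1), (m a : ℤ) *
          (tterm (Fintype.card k) e lam x₀ a +
            ((((Nat.card (R ⧸ I) / Fintype.card k) ^ 2 - 1) / (Fintype.card k ^ 2 - 1) : ℕ) : ℤ) *
              (((Fintype.card k : ℤ) - 1) * Fintype.card k) *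
              zterm (Fintype.card k) e lam x₀ a))
  /-- The virtual representation `Ind_Z ψ^a - Ind_C θ^a`, where the reduction of `Z` consists of
  the upper triangular matrices with equal diagonal entries and that of `C` is the nonsplit torus:
  the reductions of the cuspidal representations of `GL₂(k)`, the types of depth zero. -/
  | cuspidal (a : ℕ) (C Z : Subgroup (GL (Fin 2) R))
      (hC : ∀ g, g ∈ C ↔
        ι (π (g 0 1)) + ω * ι (π (g 1 1)) = ω * (ι (π (g 0 0)) + ω * ι (π (g 1 0))))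
      (θ : C →* Fˣ) (hθ : ∀ g : C, (θ g : F) = κ2 (ι (π (g.1 0 0)) + ω * ι (π (g.1 1 0))))
      (hZ : ∀ g, g ∈ Z ↔ π (g 1 0) = 0 ∧ π (g 0 0) = π (g 1 1))
      (ψ : Z →* Fˣ) (hψ : ∀ g : Z, (ψ g : F) = κ x₀ (π (g.1 0 0)))
      (h : SumJH M (Representation.coind C.subtype (chRep (θ ^ a)))
        (Representation.coind Z.subtype (chRep (ψ ^ a)))) :
      TypeFormula π κ x₀ ι ω κ2 M (fun e lam =>
        ssum (hat e) lam x₀ ((a : ℤ) + Fintype.card k - 1) 0 - ssum (hat e) lam x₀ (a : ℤ) 0)

/-- Let `M τ` be representations of `GL₂(R)` of the kinds listed in `TypeFormula`, with the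
formulas `P τ`. For functions `e`, `e' τ` with values in the natural numbers, there is a weight
function `μ` with `e(λ) = ∑ [W_λ : σ] μ(σ)` and `e'_τ(λ) = ∑ [W_λ ⊗ M_τ : σ] μ(σ)` for all dominant
`λ` and all `τ` if and only if `e` is Frobenius periodic and `e'_τ(λ) = P_τ(e)(λ)` for all dominant
`λ` and all `τ`. -/
theorem result {p : ℕ} [Fact p.Prime] {R k k2 F Emb : Type} [CommRing R] [IsLocalRing R]
    [Field k] [Fintype k] [CharP k p] [Field k2] [Fintype k2] [Field F] [Fintype Emb]
    [DecidableEq Emb] (π : R →+* k) (hπ : Function.Surjective π) (κ : Emb → k →+* F)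
    (S : Finset Emb) (x₀ : Emb) (hS : ∀ j : k →+* F, ∃! x, x ∈ S ∧ κ x = j)
    (ι : k →+* k2) (ω : k2) (hω : ∀ a, ι a ≠ ω)
    (hcard : Fintype.card k2 = Fintype.card k ^ 2) (κ2 : k2 →+* F)
    (hκ2 : ∀ a, κ2 (ι a) = κ x₀ a)
    {T : Type} (N : T → Type) [∀ τ, AddCommGroup (N τ)] [∀ τ, Module F (N τ)]
    [∀ τ, FiniteDimensional F (N τ)] (M : ∀ τ, Representation F (GL (Fin 2) R) (N τ))
    (I : T → Ideal R) [∀ τ, Finite (R ⧸ I τ)]
    (hI : ∀ (τ : T) (g : GL (Fin 2) R),
      (∀ i j, g i j - (1 : Matrix (Fin 2) (Fin 2) R) i j ∈ I τ) → M τ g = 1)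
    (P : T → ((Emb → ℤ × ℤ) → ℤ) → (Emb → ℤ × ℤ) → ℤ)
    (hP : ∀ τ, TypeFormula π κ x₀ ι ω κ2 (M τ) (P τ))
    (e : (Emb → ℤ × ℤ) → ℕ) (e' : T → (Emb → ℤ × ℤ) → ℕ) :
    (∃ μ : WeightFn F[GL (Fin 2) R],
      (∀ lam, Dominant lam → RepJHSum μ (Wi (Matrix.GeneralLinearGroup.map π) κ lam) (e lam)) ∧
      ∀ τ lam, Dominant lam →
        RepJHSum μ (twist (Matrix.GeneralLinearGroup.map π) (M τ) (W κ lam)) (e' τ lam)) ↔
    (FrobeniusPeriodic p κ (fun lam => (e lam : ℤ)) ∧
      ∀ τ lam, Dominant lam → (e' τ lam : ℤ) = P τ (fun l => (e l : ℤ)) lam) := by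
  have : CharP F p := charP_of_injective_ringHom (κ x₀).injective p
  have hq : 1 ≤ Fintype.card k := Fintype.card_pos
  obtain ⟨t, f, h⟩ := exists_setup (p := p) κ S x₀ hS
  have hker : Finite (R ⧸ RingHom.ker π) :=
    Finite.of_equiv k (RingHom.quotientKerEquivOfSurjective hπ).symm.toEquiv
  refine h.iff_of_formula π hπ κ N M P (fun τ Ψ lam hlam => ?_)
    (fun τ e e' hee lam hlam => ?_) e e'
  · have hM : PAct p (M τ) (gp π).ker := pact_cong π hπ (I τ) (M τ) (hI τ)
    set Φ := Ψ.tens (Wi (gp π) κ lam) with hΦ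
    have hQ := hP τ
    generalize P τ = Q at hQ
    cases hQ with
    | algebraic u v huv hs =>
      rw [h.val_same π hπ κ Φ (M τ) _ hM
        (pact_cong π hπ (RingHom.ker π) _ (Wi_triv π κ _ le_rfl)) hs, hΦ]
      exact Ψ.tens_single π κ x₀ lam hlam u v huv
    | principal J hJ i j hij B hB χ hχ hs =>
      obtain rfl : B = gam0 J := Subgroup.ext hB
      obtain rfl : χ = pchar π (κ x₀) J hJ (i : ℤ) (j : ℤ) := by
        apply MonoidHom.ext
        intro g
        apply Units.ext
        rw [hχ g, pchar_val, zpow_natCast, zpow_natCast]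
      rw [h.val_same π hπ κ Φ (M τ) _ hM (pact_cong π hπ J _ (ps_triv π (κ x₀) hJ i j)) hs, hΦ,
        Ψ.fam_ps p π hπ κ x₀ J hJ i j hij lam hlam]
    | ramified Z H hZ hH J hJH hz U N hN r hr hs =>
      obtain rfl : Z = zu π := Subgroup.ext hZ
      have := finiteIndex_of_cong H J hJH
      rw [h.val_same π hπ κ Φ (M τ) _ hM (pact_cong π hπ J _
        (coind_triv H N J hJH hN)) hs, hΦ,
        Ψ.fam_sub p π hπ κ x₀ H hH N J hJH hN r hz hr lam hlam]
    | unramified t n htn I' hI' J hJ θ hθ U N J' hN m hm hs =>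
      obtain rfl : J = JT t n I' := Subgroup.ext hJ
      have hθ' : ∀ a : ℕ, θ ^ a = jchar π ι ω t n hω htn κ2 I' hI' (a : ℤ) := by
        intro a
        apply MonoidHom.ext
        intro g
        apply Units.ext
        rw [MonoidHom.pow_apply, Units.val_pow_eq_pow_val, hθ g, jchar_val, zpow_natCast]
      have := finite_inf I' J'
      simp only [hθ'] at hm
      rw [h.val_same π hπ κ Φ (M τ) _ hM (pact_cong π hπ (I' ⊓ J') _
        (coind_triv _ N (I' ⊓ J') (fun g hg => (hg.mono inf_le_left).mem_JT t n)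
          (fun g hg => hN g (hg.mono inf_le_right)))) hs, hΦ,
        Ψ.fam_jt p π hπ κ x₀ ι ω κ2 hω hcard hκ2 t n htn I' hI' N J' hN m hm lam hlam]
    | cuspidal a C Z hC θ hθ hZ ψ hψ hs =>
      obtain rfl : C = torR π ι ω := Subgroup.ext hC
      obtain rfl : Z = zu π := Subgroup.ext hZ
      have hθ' : θ ^ a = tchar π ι ω κ2 (a : ℤ) := by
        apply MonoidHom.ext
        intro g
        apply Units.ext
        rw [MonoidHom.pow_apply, Units.val_pow_eq_pow_val, hθ g, tchar_val, zpow_natCast]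
      have hψ' : ψ ^ a = zchar π (kpow (κ x₀) (a : ℤ)) := by
        apply MonoidHom.ext
        intro g
        apply Units.ext
        rw [MonoidHom.pow_apply, Units.val_pow_eq_pow_val, hψ g, zchar_val, zpow_natCast]
      rw [hθ', hψ'] at hs
      rw [h.val_sum π hπ κ Φ (M τ) _ _ hM
        (pact_cong π hπ (RingHom.ker π) _ (tch_triv π le_rfl ι ω κ2 a))
        (pact_cong π hπ (RingHom.ker π) _ (zch_triv π (κ x₀) le_rfl a)) hs, hΦ,
        Ψ.fam_cusp π hπ κ x₀ ι ω κ2 hω hcard hκ2 a lam hlam]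
  · have hQ := hP τ
    generalize P τ = Q at hQ
    cases hQ with
    | algebraic u v huv hs =>
      exact ssum_congr hee lam x₀ u v
    | principal J hJ i j hij B hB χ hχ hs =>
      simp only
      rw [ssum_congr hee, ssum_congr hee, zterm_congr hee _ hq lam hlam]
    | ramified Z H hZ hH J hJH hz U N hN r hr hs =>
      simp only
      rw [zterm_congr hee _ hq lam hlam]
    | unramified t n htn I' hI' J hJ θ hθ U N J' hN m hm hs =>
      simp only [tterm_congr hee, zterm_congr hee _ hq lam hlam]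
    | cuspidal a C Z hC θ hθ hZ ψ hψ hs =>
      simp only
      rw [ssum_congr hee, ssum_congr hee]

end Pool.Agent.Results.MP_39033f_nt.TypesExplicit
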