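import Pool.Agent.Work.MP_39033f_nt.Defs
import Pool.Agent.Work.MP_39033f_nt.Periodic

/-!
# The Breuil–Mézard identities for all Hodge types follow from finitely many of them
-/

set_option autoImplicit false

open scoped MonoidAlgebra TensorProduct
open Pool.Agent.Work.MP_39033f_nt

namespace Pool.Agent.Results.MP_39033f_nt.WeightReduction

/-- For a family of representations `M τ` (the reductions of the types) and arbitrary numbers
`e τ λ`, the Breuil–Mézard identities `e τ λ = ∑_σ [W_λ ⊗ M τ : σ] μ(σ)` hold for all dominant `λ`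
and all `τ` with some weight function `μ` if and only if every `e τ` is Frobenius periodic and the
identities hold for the finitely many restricted `λ` and all `τ` with some `μ`. -/
theorem result {p : ℕ} [Fact p.Prime] {k F Emb : Type} [Field k] [Fintype k] [CharP k p]
    [Field F] [Fintype Emb] [DecidableEq Emb] (κ : Emb → k →+* F)
    (hκ : ∀ j : k →+* F, ∃ x, κ x = j) (S : Finset Emb) (x₀ : Emb)
    (hS : ∀ x, ∃ x' ∈ S, κ x' = κ x) {Γ : Type} [Group Γ] (φ : Γ →* GL (Fin 2) k)
    {T : Type} (N : T → Type) [∀ τ, AddCommGroup (N τ)] [∀ τ, Module F (N τ)]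
    [∀ τ, FiniteDimensional F (N τ)] (M : ∀ τ, Representation F Γ (N τ))
    (e : T → (Emb → ℤ × ℤ) → ℕ) :
    (∃ μ : WeightFn F[Γ], ∀ τ lam, Dominant lam →
      RepJHSum μ (twist φ (M τ) (W κ lam)) (e τ lam)) ↔
    ((∀ τ, FrobeniusPeriodic p κ (fun lam => (e τ lam : ℤ))) ∧
      ∃ μ : WeightFn F[Γ], ∀ τ lam, Restricted p (Fintype.card k) S x₀ lam →
        RepJHSum μ (twist φ (M τ) (W κ lam)) (e τ lam)) :=
  family_iff κ hκ S x₀ hS φ N M e

end Pool.Agent.Results.MP_39033f_nt.WeightReduction
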